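import Mathlib
import Pool.Agent.Q150.QuasiRay

/-!
# Every open subspace of a ray space is a quasi-ray space
-/

set_option autoImplicit false

namespace Pool.Agent.Results.MP_a0fd6e_gt.OpenQuasiRay

open Pool.Agent.Q150.RaySpace Set Topology

universe u

section

variable {T : Type u} [PartialOrder T]

/-- `F` is a finite set of tops of a common ray containing `c` (or empty), and all rays through
`c` avoiding `F` lie in `U`. -/
def Adm (U : Set (Ray False T)) (c : T) (F : Set T) : Prop :=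
  F.Finite ∧ (∃ R : Set T, c ∈ R ∧ ∀ s ∈ F, Iio s = R) ∧
    ∀ P : Ray False T, c ∈ P.1 → (∀ s ∈ F, s ∉ P.1) → P ∈ U

/-- The rays controlled by `c`. -/
def Dc (U : Set (Ray False T)) (c : T) : Set (Ray False T) :=
  {P | c ∈ P.1 ∧ ∃ F, Adm U c F ∧ ∀ s ∈ F, s ∉ P.1}

theorem isOpen_Dc (U : Set (Ray False T)) (c : T) : IsOpen (Dc U c) := by
  have : Dc U c = {P : Ray False T | c ∈ P.1} ∩ ⋃ F ∈ {F | Adm U c F}, nb False ∅ F := by
    ext P
    simp only [Dc, nb, mem_ofPred_eq, mem_inter_iff, mem_iUnion, empty_subset, true_and,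
      exists_prop]
  rw [this]
  exact (isOpen_mem c).inter (isOpen_biUnion fun F hF => isOpen_nb finite_empty hF.1)

theorem Dc_sub (U : Set (Ray False T)) (c : T) : Dc U c ⊆ U := by
  rintro P ⟨hc, F, hF, hP⟩
  exact hF.2.2 P hc hP

theorem exists_Dc (hT : IsOrderTree T) {U : Set (Ray False T)} (hU : IsOpen U) {P : Ray False T}
    (hP : P ∈ U) : ∃ c, P ∈ Dc U c := by
  obtain ⟨C, F, hC, hF, hCP, hFP, hCF⟩ := basis hT P U hU hP
  obtain ⟨c, hcP, hcC⟩ : ∃ c ∈ P.1, ∀ x ∈ C, x ≤ c := by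
    by_cases hne : C.Nonempty
    · obtain ⟨m, hm, hmax⟩ := hC.exists_maximal hne
      refine ⟨m, hCP hm, fun x hx => ?_⟩
      rcases P.2.1.2.1.total (hCP hx) (hCP hm) with h | h
      · exact h
      · exact hmax hx h
    · obtain ⟨x, hx⟩ := P.2.2.resolve_left id
      exact ⟨x, hx, fun y hy => absurd ⟨y, hy⟩ hne⟩
  refine ⟨c, hcP, F, ⟨hF, ⟨P.1, hcP, hFP⟩, fun Q hQ hQF => hCF ⟨fun x hx => ?_, hQF⟩⟩, ?_⟩
  · exact Q.2.1.1 (hcC x hx) hQ
  · exact (mem_nb P hCP hFP).2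

theorem nested {U : Set (Ray False T)} {t t' : T} (htt : t < t') {P : Ray False T}
    (hP : P ∈ Dc U t) (hP' : P ∈ Dc U t') : Dc U t' ⊆ Dc U t := by
  rintro Q ⟨htQ, F'', hF'', hQ⟩
  obtain ⟨htP, F, hF, hPF⟩ := hP
  obtain ⟨htP', -⟩ := hP'
  have htQ' : t ∈ Q.1 := Q.2.1.1 htt.le htQ
  by_cases h : ∀ s ∈ F, s ∉ Q.1
  · exact ⟨htQ', F, hF, h⟩
  push Not at h
  obtain ⟨s, hs, hsQ⟩ := h
  obtain ⟨R, htR, hR⟩ := hF.2.1
  have hts : t' < s := by
    rcases Q.2.1.2.1.total htQ hsQ with h1 | h1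
    · refine lt_of_le_of_ne h1 ?_
      rintro rfl
      exact hPF _ hs htP'
    · exact absurd (P.2.1.1 h1 htP') (hPF s hs)
  have htR' : t' ∈ R := by
    rw [← hR s hs]
    exact hts
  refine ⟨htQ', F'', ⟨hF''.1, ?_, ?_⟩, hQ⟩
  · by_cases hne : F''.Nonempty
    · obtain ⟨f, hf⟩ := hne
      obtain ⟨R'', htR'', hR''⟩ := hF''.2.1
      refine ⟨R'', ?_, hR''⟩
      have h1 : t' ∈ Iio f := by rw [hR'' f hf]; exact htR''
      rw [← hR'' f hf]
      exact lt_trans htt h1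
    · exact ⟨univ, mem_univ _, fun f hf => absurd ⟨f, hf⟩ hne⟩
  · intro P' hP' hPF'
    by_cases h1 : ∀ s ∈ F, s ∉ P'.1
    · exact hF.2.2 P' hP' h1
    · push Not at h1
      obtain ⟨f, hf, hfP⟩ := h1
      refine hF''.2.2 P' ?_ hPF'
      have h2 : t' ∈ Iio f := by rw [hR f hf]; exact htR'
      exact P'.2.1.1 (le_of_lt h2) hfP

theorem qr_Dc (hT : IsOrderTree T) (U : Set (Ray False T)) (c : T) : QR (Dc U c) := by
  by_cases hA : ∀ P : Ray False T, c ∈ P.1 → P ∉ Dc U c → ∃ s ∈ P.1, c < s ∧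
      ∀ Q ∈ Dc U c, s ∉ Q.1
  · have h1 : Dc U c = {P : Ray False T | c ∈ P.1 ∧
        ∀ f ∈ {f | c < f ∧ ∀ Q ∈ Dc U c, f ∉ Q.1}, f ∉ P.1} := by
      ext P
      constructor
      · intro hP
        exact ⟨hP.1, fun f hf => hf.2 P hP⟩
      · rintro ⟨hcP, hP⟩
        by_contra hcon
        obtain ⟨s, hs, hcs, hsQ⟩ := hA P hcP hcon
        exact hP s ⟨hcs, hsQ⟩ hs
    have h2 : IsOpen {P : Ray False T | c ∈ P.1 ∧
        ∀ f ∈ {f | c < f ∧ ∀ Q ∈ Dc U c, f ∉ Q.1}, f ∉ P.1} := by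
      rw [← h1]
      exact isOpen_Dc U c
    rw [h1]
    exact qr_basic hT c _ (fun f hf => hf.1) h2
  · push Not at hA
    obtain ⟨P0, hc0, hP0, hx⟩ := hA
    have h1 : Dc U c = {P : Ray False T | c ∈ P.1 ∧ ¬ P0.1 ⊆ P.1} := by
      ext P
      constructor
      · rintro ⟨hcP, F, hF, hPF⟩
        refine ⟨hcP, fun h => hP0 ⟨hc0, F, hF, fun s hs hsP => hPF s hs (h hsP)⟩⟩
      · rintro ⟨hcP, hP⟩
        by_contra hcon
        apply hP
        intro x hxP
        rcases P0.2.1.2.1.total hxP hc0 with h | h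
        · exact P.2.1.1 h hcP
        rcases eq_or_lt_of_le h with rfl | h
        · exact hcP
        obtain ⟨Q, hQ, hxQ⟩ := hx x hxP h
        obtain ⟨hcQ, G, hG, hQG⟩ := hQ
        obtain ⟨R, hcR, hR⟩ := hG.2.1
        obtain ⟨g, hg, hgP⟩ : ∃ g ∈ G, g ∈ P0.1 := by
          by_contra hcon'
          push Not at hcon'
          exact hP0 ⟨hc0, G, hG, hcon'⟩
        have hxg : x < g := by
          rcases P0.2.1.2.1.total hxP hgP with h1 | h1
          · refine lt_of_le_of_ne h1 ?_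
            rintro rfl
            exact hQG _ hg hxQ
          · exact absurd (Q.2.1.1 h1 hxQ) (hQG g hg)
        obtain ⟨g', hg', hgP'⟩ : ∃ g ∈ G, g ∈ P.1 := by
          by_contra hcon'
          push Not at hcon'
          exact hcon ⟨hcP, G, hG, hcon'⟩
        have h2 : x ∈ Iio g' := by
          rw [hR g' hg', ← hR g hg]
          exact hxg
        exact P.2.1.1 (le_of_lt h2) hgP'
    rw [h1]
    exact qr_cone hT c P0 hc0

theorem qr_open (hT : IsOrderTree T) {U : Set (Ray False T)} (hU : IsOpen U) : QR U := by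
  let V : T → Set (Ray False T) := fun c => {P | P ∈ Dc U c ∧ ∀ t < c, P ∉ Dc U t}
  have hV : ∀ c, QR (V c) := by
    intro c
    by_cases hne : (V c).Nonempty
    · have h1 : V c = Dc U c := by
        obtain ⟨P1, hP1, hP1'⟩ := hne
        refine subset_antisymm (fun P hP => hP.1) fun Q hQ => ⟨hQ, fun t htc hQt => ?_⟩
        exact hP1' t htc (nested htc hQt hQ hP1)
      rw [h1]
      exact qr_Dc hT U c
    · rw [not_nonempty_iff_eq_empty] at hne
      rw [hne]
      exact qr_empty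
  have hdisj : ∀ i j : T, ∀ P, P ∈ V i → P ∈ V j → i = j := by
    rintro i j P ⟨hi, hi'⟩ ⟨hj, hj'⟩
    rcases P.2.1.2.1.total hi.1 hj.1 with h | h
    · rcases eq_or_lt_of_le h with h | h
      · exact h
      · exact absurd hi (hj' i h)
    · rcases eq_or_lt_of_le h with h | h
      · exact h.symm
      · exact absurd hj (hi' j h)
  have hUV : U = ⋃ c, V c := by
    ext P
    simp only [mem_iUnion]
    constructor
    · intro hP
      obtain ⟨c, hc, hmin⟩ := (wf_of_forest hT.2).has_min {c | P ∈ Dc U c} (exists_Dc hT hU hP)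
      exact ⟨c, hc, fun t htc ht => hmin t ht htc⟩
    · rintro ⟨c, hc, -⟩
      exact Dc_sub U c hc
  rw [hUV]
  exact qr_sum hV hdisj

end

/-- **Every open subspace of a ray space is a quasi-ray space.** -/
theorem result (T : Type u) [PartialOrder T] (hT : IsOrderTree T) (U : Set (Ray False T))
    (hU : IsOpen U) : ∃ (S : Type u) (_ : PartialOrder S), IsOrderTree S ∧
      ∃ f : U → Ray False S, Continuous f ∧ Function.Bijective f := by
  classical
  obtain ⟨S, hS, e, hST, he, ho⟩ := qr_open hT hU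
  refine ⟨S, hS, hST, fun x => ⟨e x.1, (he.mapsTo x.2).1, Or.inr (he.mapsTo x.2).2⟩, ?_, ?_, ?_⟩
  · refine continuous_induced_rng.2 (continuous_pi fun s => ?_)
    rw [continuous_bool_rng true]
    have h1 : ((fun x : U => (((fun (R : Ray False S) (t : S) =>
        @decide (t ∈ R.1) (Classical.propDecidable _)) ∘ fun x : U =>
        (⟨e x.1, (he.mapsTo x.2).1, Or.inr (he.mapsTo x.2).2⟩ : Ray False S)) x s)) ⁻¹' {true}) =
        Subtype.val ⁻¹' {x : Ray False T | x ∈ U ∧ s ∈ e x} := by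
      ext x
      simp
    rw [h1]
    refine ⟨?_, (ho s).1.preimage continuous_subtype_val⟩
    rw [← isOpen_compl_iff]
    have h2 : ((Subtype.val : U → Ray False T) ⁻¹' {x : Ray False T | x ∈ U ∧ s ∈ e x})ᶜ =
        Subtype.val ⁻¹' {x : Ray False T | x ∈ U ∧ s ∉ e x} := by
      ext x
      simp
    rw [h2]
    exact (ho s).2.preimage continuous_subtype_val
  · intro x y hxy
    have h1 : e x.1 = e y.1 := congrArg (fun R : Ray False S => R.1) hxy
    exact Subtype.ext (he.injOn x.2 y.2 h1)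
  · rintro ⟨R, hR, hne⟩
    obtain ⟨x, hx, hxR⟩ := he.surjOn (show R ∈ Rays S from ⟨hR, hne.resolve_left id⟩)
    exact ⟨⟨x, hx⟩, Subtype.ext hxR⟩

end Pool.Agent.Results.MP_a0fd6e_gt.OpenQuasiRay
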